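import Pool.Agent.helper23.TH.Spec

/-!
# Project th, modules MONO and PB
-/

set_option autoImplicit false

namespace Pool.Agent.helper23.TH

/-- embedding of a smaller power into a larger one -/
def MONO_emb (T : Rooted) {p q : ℕ} (h : p ≤ q) :
    Fin T.r ⊕ (Fin p × Fin T.v) → Fin T.r ⊕ (Fin q × Fin T.v)
  | .inl x => .inl x
  | .inr y => .inr (Fin.castLE h y.1, y.2)

theorem MONO_emb_inj (T : Rooted) {p q : ℕ} (h : p ≤ q) : Function.Injective (MONO_emb T h) := by
  intro a b hab
  rcases a with a | ⟨a, a'⟩ <;> rcases b with b | ⟨b, b'⟩ <;>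
    simp only [MONO_emb, Sum.inl.injEq, Sum.inr.injEq, Prod.mk.injEq, reduceCtorEq] at hab
  · rw [hab]
  · rw [Fin.castLE_injective h hab.1, hab.2]

theorem MONO_lift (T : Rooted) {p q : ℕ} (h : p ≤ q) (t : Fin p) (a : Fin T.r ⊕ Fin T.v) :
    MONO_emb T h (T.lift t a) = T.lift (Fin.castLE h t) a := by
  rcases a with a | a <;> rfl

/-- fewer copies -/
theorem MONO : MONO_stmt := by
  rintro T p q h V K χ ⟨φ, ψ, hφ, hψ, hd, hc⟩
  refine ⟨φ ∘ MONO_emb T h, ψ ∘ MONO_emb T h, hφ.comp (MONO_emb_inj T h),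
    hψ.comp (MONO_emb_inj T h), fun u v => hd _ _, ?_⟩
  rintro u v ⟨t, i, hi⟩
  apply hc
  refine ⟨Fin.castLE h t, i, ?_⟩
  rcases hi with ⟨rfl, rfl⟩ | ⟨rfl, rfl⟩
  · exact Or.inl ⟨MONO_lift T h t _, MONO_lift T h t _⟩
  · exact Or.inr ⟨MONO_lift T h t _, MONO_lift T h t _⟩

theorem PB_pos {l i : ℕ} (h1 : 1 ≤ i) (h2 : i < l) : pos l i = .inr ⟨i - 1, by omega⟩ := by
  unfold pos
  rw [dif_pos ⟨h1, h2⟩]

theorem PB_balanced (l : ℕ) (hl : 2 ≤ l) : (pathT l).Balanced := by
  intro S
  rcases S.eq_empty_or_nonempty with rfl | hS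
  · simp
  · have hv : ∀ x : Fin (pathT l).v, x.val < l - 1 := fun x => x.isLt
    have key : S.card + 1 ≤ (pathT l).es S := by
      unfold Rooted.es
      have hmin := S.min'_mem hS
      set m := S.min' hS with hm
      let e1 : Fin (pathT l).v → Fin (pathT l).e := fun x => ⟨x.val + 1, by
        have := hv x; show x.val + 1 < l; omega⟩
      let e0 : Fin (pathT l).e := ⟨m.val, by have := hv m; show m.val < l; omega⟩
      have hinj : Function.Injective e1 := by
        intro a b hab
        have : a.val + 1 = b.val + 1 := congrArg Fin.val hab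
        exact Fin.ext (by omega)
      have hn : e0 ∉ S.image e1 := by
        intro h
        obtain ⟨x, hx, hxe⟩ := Finset.mem_image.mp h
        have h1 : x.val + 1 = m.val := congrArg Fin.val hxe
        have h2 : m ≤ x := S.min'_le x hx
        have h3 : m.val ≤ x.val := h2
        omega
      have hc : (insert e0 (S.image e1)).card = S.card + 1 := by
        rw [Finset.card_insert_of_notMem hn, Finset.card_image_of_injective _ hinj]
      rw [← hc]
      apply Finset.card_le_card
      intro i hi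
      rw [Finset.mem_filter]
      refine ⟨Finset.mem_univ _, ?_⟩
      rcases Finset.mem_insert.mp hi with rfl | hi
      · refine ⟨m, hmin, Or.inr ?_⟩
        show pos l (m.val + 1) = Sum.inr m
        rw [PB_pos (by omega) (by have := hv m; omega)]
        rfl
      · obtain ⟨x, hx, rfl⟩ := Finset.mem_image.mp hi
        refine ⟨x, hx, Or.inl ?_⟩
        show pos l (x.val + 1) = Sum.inr x
        rw [PB_pos (by omega) (by have := hv x; omega)]
        rfl
    have hcard : S.card ≤ l - 1 := by
      have := S.card_le_univ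
      rw [Fintype.card_fin] at this
      exact this
    show l * S.card ≤ (l - 1) * (pathT l).es S
    calc l * S.card = (l - 1) * S.card + S.card := by
          obtain ⟨k, rfl⟩ : ∃ k, l = k + 1 := ⟨l - 1, by omega⟩
          rw [Nat.add_sub_cancel, Nat.add_mul, Nat.one_mul]
      _ ≤ (l - 1) * S.card + (l - 1) := Nat.add_le_add_left hcard _
      _ = (l - 1) * (S.card + 1) := by rw [Nat.mul_add, Nat.mul_one]
      _ ≤ _ := Nat.mul_le_mul_left _ key

/-- parity of the distance to the first end -/
def PB_col (l p : ℕ) : Fin (pathT l).r ⊕ (Fin p × Fin (pathT l).v) → ℕ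
  | .inl x => if x.val = 0 then 0 else l
  | .inr y => y.2.val + 1

theorem PB_col_pos (l p : ℕ) (t : Fin p) (i : ℕ) (hi : i ≤ l) :
    PB_col l p ((pathT l).lift t (pos l i)) = i := by
  unfold pos
  split_ifs with h1 h2
  · show i - 1 + 1 = i
    omega
  · subst h2
    rfl
  · show (if (1 : Fin 2).val = 0 then 0 else l) = i
    rw [if_neg (by decide)]
    omega

theorem PB_colorable (l p : ℕ) : (theta l p).Colorable 2 := by
  refine ⟨SimpleGraph.Coloring.mk (fun x => (⟨PB_col l p x % 2, Nat.mod_lt _ (by norm_num)⟩ : Fin 2)) ?_⟩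
  have key : ∀ (t : Fin p) (i : Fin (pathT l).e),
      PB_col l p ((pathT l).lift t ((pathT l).ed i).1) % 2 ≠
        PB_col l p ((pathT l).lift t ((pathT l).ed i).2) % 2 := by
    intro t i
    have hi : i.val < l := i.isLt
    have h1 : PB_col l p ((pathT l).lift t ((pathT l).ed i).1) = i.val :=
      PB_col_pos l p t i.val (by omega)
    have h2 : PB_col l p ((pathT l).lift t ((pathT l).ed i).2) = i.val + 1 :=
      PB_col_pos l p t (i.val + 1) (by omega)
    rw [h1, h2]
    omega
  rintro a b ⟨t, i, ⟨rfl, rfl⟩ | ⟨rfl, rfl⟩⟩ h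
  · exact key t i (congrArg Fin.val h)
  · exact key t i (congrArg Fin.val h).symm

/-- the path is balanced and theta graphs are bipartite -/
theorem PB : PB_stmt := ⟨PB_balanced, PB_colorable⟩

end Pool.Agent.helper23.TH
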