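import Pool.Agent.helper9.TH.Spec

set_option linter.all false

namespace Pool.Agent.helper99.TH

open Pool.Agent.helper9.TH
open scoped Pointwise

universe u

theorem FC (hFU : FU_stmt.{u}) (hPBb : PBb_stmt.{u}) : FC_stmt.{u} := by
  intro p G _ _ hp hN P x g hx hgx
  haveI : Fact p.Prime := ⟨hp⟩
  by_cases hx1 : x = 1
  · subst hx1
    exact ⟨1, P.one_mem, by simp⟩
  have hQm : ∀ z : G, z ∈ (g⁻¹ • P : Sylow p G) ↔ g * z * g⁻¹ ∈ P := by
    intro z
    have h1 : z ∈ (g⁻¹ • P : Sylow p G) ↔ z ∈ (MulAut.conj g⁻¹ • (P : Subgroup G)) := Iff.rfl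
    rw [h1, Subgroup.mem_pointwise_smul_iff_inv_smul_mem]
    simp only [map_inv, inv_inv, MulAut.smul_def, MulAut.conj_apply]
    exact Iff.rfl
  obtain ⟨c, hc1, hc2⟩ := hFU p G hp hN P (g⁻¹ • P)
  have hcx : c * x = x * c := hc1 x hx ((hQm x).2 hgx)
  have hnorm : ∀ z : G, z ∈ P ↔ (g * c) * z * (g * c)⁻¹ ∈ P := by
    intro z
    rw [hc2 z, hQm]
    have : g * (c * z * c⁻¹) * g⁻¹ = (g * c) * z * (g * c)⁻¹ := by group
    rw [this]
  set N := Subgroup.normalizer ((P : Subgroup G) : Set G) with hNdef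
  have hgcN : g * c ∈ N := by
    rw [hNdef, Subgroup.mem_normalizer_iff]
    intro h
    exact hnorm h
  have hPne : (P : Subgroup G) ≠ ⊥ := by
    intro h
    apply hx1
    have : x ∈ (P : Subgroup G) := hx
    rw [h, Subgroup.mem_bot] at this
    exact this
  obtain ⟨K, hKn, hKc, k, hKi⟩ := hN (P : Subgroup G) P.isPGroup' hPne
  have hPN : (P : Subgroup G) ≤ N := Subgroup.le_normalizer
  set D : Subgroup N := (P : Subgroup G).subgroupOf N with hD
  have hDn : D.Normal := Subgroup.normal_in_normalizer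
  have hDp : IsPGroup p D := by
    have := P.isPGroup'
    exact (this.comap_subtype (K := N))
  have hcomm := hPBb.2.1 p N K D hp hKn hKc hDn hDp
  have hsup : D ⊔ K = ⊤ := by
    rw [← Subgroup.index_eq_one]
    have h1 : (D ⊔ K).index ∣ p ^ k := hKi ▸ Subgroup.index_dvd_of_le le_sup_right
    have h2 : (D ⊔ K).index ∣ D.index := Subgroup.index_dvd_of_le le_sup_left
    have h3 : D.index ∣ (P : Subgroup G).index := by
      have : D.index = (P : Subgroup G).relIndex N := rfl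
      rw [this]
      exact Dvd.intro _ (Subgroup.relIndex_mul_index hPN)
    have h4 : ¬ p ∣ (P : Subgroup G).index := P.not_dvd_index
    obtain ⟨j, hj, hjj⟩ := (Nat.dvd_prime_pow hp).1 h1
    rcases Nat.eq_zero_or_pos j with h0 | h0
    · rw [hjj, h0, pow_zero]
    · exfalso
      apply h4
      refine dvd_trans ?_ (dvd_trans h2 h3)
      rw [hjj]
      exact dvd_pow_self p (by omega)
  have hmem : (⟨g * c, hgcN⟩ : N) ∈ D ⊔ K := by rw [hsup]; trivial
  haveI := hKn
  obtain ⟨y, hy, z, hz, hyz⟩ := Subgroup.mem_sup_of_normal_right.1 hmem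
  refine ⟨(y : G), hy, ?_⟩
  have hzx : (z : G) * x = x * (z : G) := by
    have := hcomm z hz ⟨x, hPN hx⟩ hx
    exact congrArg Subtype.val this
  have hyz' : (y : G) * (z : G) = g * c := congrArg Subtype.val hyz
  have e1 : g * x * g⁻¹ = (g * c) * x * (g * c)⁻¹ := by
    have : (g * c) * x * (g * c)⁻¹ = g * (c * x) * c⁻¹ * g⁻¹ := by group
    rw [this, hcx]
    group
  rw [e1, ← hyz']
  have : (y : G) * (z : G) * x * ((y : G) * (z : G))⁻¹ = (y : G) * ((z : G) * x) * (z : G)⁻¹ * (y : G)⁻¹ := by group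
  rw [this, hzx]
  group

end Pool.Agent.helper99.TH
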